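import Mathlib
import Pool.Agent.H399R2.Run
import Pool.Agent.H399R2.Window
import Pool.Agent.W260.GC.Tab

set_option autoImplicit false

open Pool.Agent.H399R2 Pool.Agent.W260.GC

namespace Pool.Agent.Results.MP_b5e119_nt.SharperDichotomy

lemma idx_eq (N l x w d n y : ℕ) (hn : n = l + w) (hy : x = y + d + (w - 1)) :
    idx (N % 15) (l % 30 + w) (x % 15 + 14 * (w - 1 + d)) = idx N n y := by
  unfold idx
  have h1 : (l % 30 + w) % 30 = n % 30 := by omega
  have h2 : (x % 15 + 14 * (w - 1 + d)) % 15 = y % 15 := by omega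
  rw [h1, h2, Nat.mod_mod]

lemma idx_eq0 (N l x : ℕ) : idx (N % 15) (l % 30) (x % 15) = idx N l x := by
  unfold idx
  simp

lemma beq_iff (a b : ℕ) : Nat.beq a b = true ↔ a = b := by
  constructor
  · exact Nat.eq_of_beq_eq_true
  · rintro rfl
    exact Nat.beq_refl a

/-- reading off the table functions -/
lemma F_iff3 (N l x w : ℕ) (V : ℕ → ℤ) (hVeven : ∀ n, n % 2 = 0 → V n = n)
    (hVodd : ∀ n, n % 2 = 1 → V n = 2 * (N : ℤ) - n) (hw : w - 1 ≤ x) :
    F 3 (N % 15) (l % 30) (x % 15) w = true ↔ (3 : ℤ) ∣ V (l + w) ∧ (3 : ℤ) ∣ ((x - (w - 1) : ℕ) : ℤ) := by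
  unfold F vr
  rw [Bool.and_eq_true, beq_iff, beq_iff]
  rcases Nat.mod_two_eq_zero_or_one (l + w) with h | h
  · have h2 : (l % 30 + w) % 2 = 0 := by omega
    have h3 : Nat.beq 0 0 = true := rfl
    rw [hVeven _ h, h2, h3]
    simp only [cond_true]
    omega
  · have h2 : (l % 30 + w) % 2 = 1 := by omega
    have h3 : Nat.beq 1 0 = false := rfl
    rw [hVodd _ h, h2, h3]
    simp only [cond_false]
    omega

lemma F_iff5 (N l x w : ℕ) (V : ℕ → ℤ) (hVeven : ∀ n, n % 2 = 0 → V n = n)
    (hVodd : ∀ n, n % 2 = 1 → V n = 2 * (N : ℤ) - n) (hw : w - 1 ≤ x) :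
    F 5 (N % 15) (l % 30) (x % 15) w = true ↔ (5 : ℤ) ∣ V (l + w) ∧ (5 : ℤ) ∣ ((x - (w - 1) : ℕ) : ℤ) := by
  unfold F vr
  rw [Bool.and_eq_true, beq_iff, beq_iff]
  rcases Nat.mod_two_eq_zero_or_one (l + w) with h | h
  · have h2 : (l % 30 + w) % 2 = 0 := by omega
    have h3 : Nat.beq 0 0 = true := rfl
    rw [hVeven _ h, h2, h3]
    simp only [cond_true]
    omega
  · have h2 : (l % 30 + w) % 2 = 1 := by omega
    have h3 : Nat.beq 1 0 = false := rfl
    rw [hVodd _ h, h2, h3]
    simp only [cond_false]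
    omega

lemma amort (N f : ℕ) (x : ℕ → ℕ) (V : ℕ → ℤ)
    (hVeven : ∀ n, n % 2 = 0 → V n = n) (hVodd : ∀ n, n % 2 = 1 → V n = 2 * (N : ℤ) - n)
    (hseg : Seg x V 1 f) (hpar : ∀ n, 2 ≤ n → n ≤ f → (x n + n) % 2 = 0) :
    ∀ n, 2 ≤ n → n ≤ f → ∃ l, 2 ≤ l ∧ l ≤ n ∧
      (∀ k, l ≤ k → k < n → Int.gcd (x k) (V (k + 1)) = 1) ∧
      33 * l + 23 * x l + 2 * T (idx N l (x l)) ≤ 23 * x 2 + 128 := by
  intro n h2n
  induction n, h2n using Nat.le_induction with
  | base =>
    intro _
    refine ⟨2, le_rfl, le_rfl, fun k h1 h2 => absurd h1 (by omega), ?_⟩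
    have := T_le (idx N 2 (x 2))
    omega
  | succ n h2n ih =>
    intro hnf
    obtain ⟨l, h2l, hln, htr, hineq⟩ := ih (by omega)
    have hstep := hseg.step n (by omega) (by omega)
    have hg0 := hseg.gcd_pos (by omega : 1 ≤ n) (by omega : n < f)
    set g := Int.gcd (x n) (V (n + 1)) with hg
    by_cases hg1 : g = 1
    · refine ⟨l, h2l, by omega, ?_, hineq⟩
      intro k hk1 hk2
      rcases Nat.lt_succ_iff_lt_or_eq.mp hk2 with h3 | h3
      · exact htr k hk1 h3
      · subst h3; exact hg1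
    -- a jump
    have hodd : g % 2 = 1 := by
      by_contra hcon
      have h2g : 2 ∣ g := by omega
      have h2x : ((2 : ℕ) : ℤ) ∣ (x n : ℤ) :=
        (Int.natCast_dvd_natCast.mpr h2g).trans (Int.gcd_dvd_left _ _)
      have h2V : ((2 : ℕ) : ℤ) ∣ V (n + 1) :=
        (Int.natCast_dvd_natCast.mpr h2g).trans (Int.gcd_dvd_right _ _)
      have hp := hpar n h2n (by omega)
      push_cast at h2x h2V
      rcases Nat.mod_two_eq_zero_or_one (n + 1) with h3 | h3
      · rw [hVeven _ h3] at h2V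
        omega
      · rw [hVodd _ h3] at h2V
        omega
    have hrunl := hseg.run (by omega : 1 ≤ l) (by omega : n ≤ f) htr
    have hxl : x l = x n + (n - l) := hrunl l le_rfl hln
    have hwait : ∀ p : ℕ, p.Prime → p ∣ g → n + 1 - l ≤ 2 * p := by
      intro p hpp hpg
      have hpx : (p : ℤ) ∣ (x n : ℤ) :=
        (Int.natCast_dvd_natCast.mpr hpg).trans (Int.gcd_dvd_left _ _)
      have hpV : (p : ℤ) ∣ V (n + 1) :=
        (Int.natCast_dvd_natCast.mpr hpg).trans (Int.gcd_dvd_right _ _)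
      by_contra hcon
      push Not at hcon
      set k := n - 2 * p with hk
      have hp0 := hpp.pos
      have htk := htr k (by omega) (by omega)
      have hxk := hrunl k (by omega) (by omega)
      have h1 : (p : ℤ) ∣ (x k : ℤ) := by
        rw [hxk]
        have : n - k = 2 * p := by omega
        rw [this]
        push_cast
        exact dvd_add hpx (Dvd.intro_left _ rfl)
      have h2 : (p : ℤ) ∣ V (k + 1) := by
        rcases Nat.mod_two_eq_zero_or_one (k + 1) with h3 | h3
        · rw [hVeven _ h3]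
          rw [hVeven _ (by omega : (n + 1) % 2 = 0)] at hpV
          have e1 : ((n + 1 : ℕ) : ℤ) = ((k + 1 : ℕ) : ℤ) + (p : ℤ) * 2 := by omega
          rw [e1] at hpV
          exact (Int.dvd_add_left (Dvd.intro _ rfl)).mp hpV
        · rw [hVodd _ h3]
          rw [hVodd _ (by omega : (n + 1) % 2 = 1)] at hpV
          have e1 : 2 * (N : ℤ) - ((n + 1 : ℕ) : ℤ) =
              (2 * (N : ℤ) - ((k + 1 : ℕ) : ℤ)) + (p : ℤ) * (-2) := by omega
          rw [e1] at hpV
          exact (Int.dvd_add_left (Dvd.intro _ rfl)).mp hpV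
      have h3 : (p : ℤ) ∣ (Int.gcd (x k) (V (k + 1)) : ℤ) := Int.dvd_coe_gcd h1 h2
      rw [htk] at h3
      have h4 : p ∣ 1 := by exact_mod_cast h3
      exact hpp.one_lt.ne' (Nat.dvd_one.mp h4)
    refine ⟨n + 1, by omega, le_rfl, fun k h1 h2 => absurd h1 (by omega), ?_⟩
    -- it is enough to compare the increments
    have suff : 10 * (n + 1 - l) + 2 * T (idx N (n + 1) (x (n + 1))) ≤
        23 * (g - 1) + 2 * T (idx N l (x l)) →
        33 * (n + 1) + 23 * x (n + 1) + 2 * T (idx N (n + 1) (x (n + 1))) ≤ 23 * x 2 + 128 := by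
      intro h
      omega
    apply suff
    have hTn := T_le (idx N (n + 1) (x (n + 1)))
    have hpp : (Nat.minFac g).Prime := Nat.minFac_prime hg1
    have hpg : Nat.minFac g ∣ g := Nat.minFac_dvd g
    have hple : Nat.minFac g ≤ g := Nat.minFac_le (by omega)
    have hw := hwait _ hpp hpg
    have hgx : (g : ℤ) ∣ (x n : ℤ) := Int.gcd_dvd_left _ _
    have hgV : (g : ℤ) ∣ V (n + 1) := Int.gcd_dvd_right _ _
    set w := n + 1 - l with hwdef
    -- no forced jump before
    have hnof : ∀ j, 1 ≤ j → j < w → ∀ q : ℤ, (q = 3 ∨ q = 5) →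
        ¬ (q ∣ V (l + j) ∧ q ∣ ((x l - (j - 1) : ℕ) : ℤ)) := by
      intro j hj1 hj2 q hq hcon
      have htj := htr (l + j - 1) (by omega) (by omega)
      have hxj := hrunl (l + j - 1) (by omega) (by omega)
      have e1 : x (l + j - 1) = x l - (j - 1) := by omega
      have e2 : l + j - 1 + 1 = l + j := by omega
      rw [e1, e2] at htj
      have h3 : q ∣ (Int.gcd ((x l - (j - 1) : ℕ) : ℤ) (V (l + j)) : ℤ) :=
        Int.dvd_coe_gcd hcon.2 hcon.1
      rw [htj] at h3
      rcases hq with hq | hq <;> subst hq <;> omega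
    have hN15 : N % 15 < 15 := Nat.mod_lt _ (by norm_num)
    have hl30 : l % 30 < 30 := Nat.mod_lt _ (by norm_num)
    have hx15 : x l % 15 < 15 := Nat.mod_lt _ (by norm_num)
    have hspec := chk_spec (N % 15) (l % 30) (x l % 15) 46 1 (chk_all _ _ _ hN15 hl30 hx15) w
      (by omega)
    have hfree : ∀ j, 1 ≤ j → j < w → F 3 (N % 15) (l % 30) (x l % 15) j = false ∧
        F 5 (N % 15) (l % 30) (x l % 15) j = false := by
      intro j hj1 hj2
      constructor
      · rw [Bool.eq_false_iff, Ne, F_iff3 N l (x l) j V hVeven hVodd (by omega)]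
        exact hnof j hj1 hj2 3 (Or.inl rfl)
      · rw [Bool.eq_false_iff, Ne, F_iff5 N l (x l) j V hVeven hVodd (by omega)]
        exact hnof j hj1 hj2 5 (Or.inr rfl)
    have hlw : l + w = n + 1 := by omega
    have hxw : x l - (w - 1) = x n := by omega
    have F3 := F_iff3 N l (x l) w V hVeven hVodd (by omega)
    have F5 := F_iff5 N l (x l) w V hVeven hVodd (by omega)
    rw [hlw, hxw] at F3 F5
    have d3 : F 3 (N % 15) (l % 30) (x l % 15) w = true ↔ 3 ∣ g := by
      rw [F3]
      constructor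
      · rintro ⟨h1, h2⟩
        have : (3 : ℤ) ∣ (g : ℤ) := Int.dvd_coe_gcd h2 h1
        omega
      · intro h
        have : (3 : ℤ) ∣ (g : ℤ) := by omega
        exact ⟨this.trans hgV, this.trans hgx⟩
    have d5 : F 5 (N % 15) (l % 30) (x l % 15) w = true ↔ 5 ∣ g := by
      rw [F5]
      constructor
      · rintro ⟨h1, h2⟩
        have : (5 : ℤ) ∣ (g : ℤ) := Int.dvd_coe_gcd h2 h1
        omega
      · intro h
        have : (5 : ℤ) ∣ (g : ℤ) := by omega
        exact ⟨this.trans hgV, this.trans hgx⟩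
    have concl : ineq (N % 15) (l % 30) (x l % 15) w g = true →
        10 * w + 2 * T (idx N (n + 1) (x (n + 1))) ≤ 23 * (g - 1) + 2 * T (idx N l (x l)) := by
      intro h
      have h1 := ineq_spec _ _ _ _ _ h
      rw [idx_eq N l (x l) w g (n + 1) (x (n + 1)) hlw.symm (by omega), idx_eq0] at h1
      exact h1
    by_cases h3 : 3 ∣ g
    · have hw3 := hwait 3 Nat.prime_three h3
      rcases Nat.lt_or_ge g 9 with h9 | h9
      · have hg3 : g = 3 := by omega
        apply concl
        have h5 : F 5 (N % 15) (l % 30) (x l % 15) w = false := by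
          rw [Bool.eq_false_iff, Ne, d5]; omega
        rw [hg3]
        exact (hspec (by omega) hfree).1 (d3.mpr h3) h5
      · omega
    have h3f : F 3 (N % 15) (l % 30) (x l % 15) w = false := by
      rw [Bool.eq_false_iff, Ne, d3]; exact h3
    by_cases h5 : 5 ∣ g
    · have hw5 := hwait 5 Nat.prime_five h5
      rcases Nat.lt_or_ge g 9 with h9 | h9
      · have hg5 : g = 5 := by omega
        apply concl
        rw [hg5]
        exact (hspec (by omega) hfree).2.1 (d5.mpr h5) h3f
      · have hg15 : 15 ≤ g := by omega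
        have hg25 : 25 ≤ g := by omega
        omega
    have h5f : F 5 (N % 15) (l % 30) (x l % 15) w = false := by
      rw [Bool.eq_false_iff, Ne, d5]; exact h5
    -- the least prime factor is at least 7
    have hp2 := hpp.two_le
    have hnp : ∀ m : ℕ, m < 29 → m = Nat.minFac g → m ∈ dl := by
      intro m hm hmm
      have hmp : m.Prime := by rw [hmm]; exact hpp
      have hmg : m ∣ g := by rw [hmm]; exact hpg
      unfold dl
      interval_cases m
      all_goals first
        | (exfalso; revert hmp; norm_num; done)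
        | (exfalso; omega)
        | simp
    rcases Nat.lt_or_ge (Nat.minFac g) 29 with h29 | h29
    · have hmem := hnp _ h29 rfl
      have h7 : 7 ≤ Nat.minFac g := by
        have : ∀ d ∈ dl, 7 ≤ d := by decide
        exact this _ hmem
      by_cases hgp : g = Nat.minFac g
      · apply concl
        have h23 : ∀ d ∈ dl, d ≤ 23 := by decide
        have := h23 _ hmem
        have h8 := (hspec (by omega) hfree).2.2 h3f h5f _ hmem hw
        rw [← hgp] at h8
        exact h8
      · -- composite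
        obtain ⟨c, hc⟩ := hpg
        have hc1 : c ≠ 1 := by
          intro h; rw [h, mul_one] at hc; exact hgp hc
        have hc0 : c ≠ 0 := by
          intro h; rw [h, mul_zero] at hc; omega
        have hc7 : 2 ≤ c := by omega
        have hcodd : c ≠ 2 := by
          intro h
          rw [h] at hc
          omega
        have hc3 : 3 ≤ c := by omega
        have : Nat.minFac g * 3 ≤ g := by
          calc Nat.minFac g * 3 ≤ Nat.minFac g * c := Nat.mul_le_mul_left _ hc3
            _ = g := hc.symm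
        omega
    · omega

/-- Dichotomy with the constant `23/33 < 0.697`: either `g+1` and `2N-g-1` are both prime or
`33 g ≤ 23 N + 20 √(2N-g-1) + 49`; in particular for `N ≥ 2208` both are prime as soon as `g ≥ 5N/7`. -/
theorem result :
    ∀ N : ℕ, 3 ≤ N → ∀ a : ℕ → ℤ, a 1 = (N : ℤ) - 2 →
      (∀ n : ℕ, 2 ≤ n → a n = a (n - 1) -
        ((Int.gcd (a (n - 1)) ((N : ℤ) - (-1) ^ n * ((N : ℤ) - n)) : ℕ) : ℤ)) →
      ∀ g : ℕ, IsLeast {n : ℕ | 2 ≤ n ∧ a n = 0} g →
        ((Nat.Prime (g + 1) ∧ Nat.Prime (2 * N - g - 1)) ∨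
          33 * g ≤ 23 * N + 20 * Nat.sqrt (2 * N - g - 1) + 49) ∧
        (2208 ≤ N → 5 * N ≤ 7 * g → Nat.Prime (g + 1) ∧ Nat.Prime (2 * N - g - 1)) := by
  intro N hN a ha1 ha f hf
  obtain ⟨⟨hf1, haf⟩, hmin⟩ := hf
  have hmin' : ∀ k, 1 ≤ k → k < f → a k ≠ 0 := by
    intro k hk1 hk2 hk3
    rcases Nat.lt_or_ge k 2 with h | h
    · have : k = 1 := by omega
      subst this
      rw [ha1] at hk3
      omega
    · have := hmin ⟨h, hk3⟩
      omega
  have hnn : ∀ k, 1 ≤ k → k ≤ f → 0 ≤ a k := by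
    intro k hk
    induction k, hk using Nat.le_induction with
    | base => intro _; rw [ha1]; omega
    | succ k hk ih =>
      intro hkf
      have h1 := ih (by omega)
      have hpos : 0 < a k := lt_of_le_of_ne h1 (Ne.symm (hmin' k hk (by omega)))
      rw [ha (k + 1) (by omega), Nat.add_sub_cancel]
      have := Int.le_of_dvd hpos (Int.gcd_dvd_left (a := a k)
        (b := (N : ℤ) - (-1) ^ (k + 1) * ((N : ℤ) - ((k + 1 : ℕ) : ℤ))))
      linarith
  set V : ℕ → ℤ := fun n => (N : ℤ) - (-1) ^ n * ((N : ℤ) - n) with hVdef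
  have hVeven : ∀ n, n % 2 = 0 → V n = n := by
    intro n hn
    have : Even n := Nat.even_iff.mpr hn
    simp only [hVdef]; rw [this.neg_one_pow]; ring
  have hVodd : ∀ n, n % 2 = 1 → V n = 2 * N - n := by
    intro n hn
    have : Odd n := Nat.odd_iff.mpr hn
    simp only [hVdef]; rw [this.neg_one_pow]; ring
  have hseg : Seg (fun k => (a k).natAbs) V 1 f := by
    refine ⟨by omega, ?_, ?_⟩
    · intro n hn1 hn2
      have h1 := ha (n + 1) (by omega)
      rw [Nat.add_sub_cancel] at h1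
      have h2 : (((a n).natAbs : ℕ) : ℤ) = a n := Int.natAbs_of_nonneg (hnn n hn1 (by omega))
      have h3 : (((a (n + 1)).natAbs : ℕ) : ℤ) = a (n + 1) :=
        Int.natAbs_of_nonneg (hnn (n + 1) (by omega) (by omega))
      have : ((((a (n + 1)).natAbs + Int.gcd (((a n).natAbs : ℕ) : ℤ) (V (n + 1)) : ℕ)) : ℤ)
          = (((a n).natAbs : ℕ) : ℤ) := by
        rw [Nat.cast_add, h2, h3, h1]
        ring
      exact_mod_cast this
    · intro n hn1 hn2
      exact Int.natAbs_pos.mpr (hmin' n hn1 hn2)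
  set x : ℕ → ℕ := fun k => (a k).natAbs with hx
  have hx1 : x 1 = N - 2 := by
    simp only [hx]; rw [ha1]; omega
  have hxf : x f = 0 := by simp only [hx]; rw [haf]; rfl
  -- the first step
  have hstep1 := hseg.step 1 le_rfl (by omega)
  rw [hVeven 2 rfl] at hstep1
  have hg2 : Int.gcd (x 1 : ℤ) ((2 : ℕ) : ℤ) = Nat.gcd (N - 2) 2 := by rw [hx1]; rfl
  rw [show (1 + 1 : ℕ) = 2 from rfl, hg2, hx1] at hstep1
  have hpar2 : (x 2 + 2) % 2 = 0 ∧ x 2 + 3 ≤ N := by
    rcases Nat.mod_two_eq_zero_or_one N with h | h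
    · have h2 : Nat.gcd (N - 2) 2 = 2 := Nat.gcd_eq_right (by omega)
      rw [h2] at hstep1
      omega
    · have h2 : Nat.gcd (N - 2) 2 = 1 := by
        exact (Nat.coprime_two_left.2 (Nat.odd_iff.mpr (by omega))).symm
      rw [h2] at hstep1
      omega
  have hpar : ∀ n, 2 ≤ n → n ≤ f → (x n + n) % 2 = 0 := by
    intro n hn
    induction n, hn using Nat.le_induction with
    | base => intro _; exact hpar2.1
    | succ n hn ih =>
      intro hnf
      have hp := ih (by omega)
      have hstep := hseg.step n (by omega) (by omega)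
      set g := Int.gcd (x n : ℤ) (V (n + 1)) with hg
      have hodd : g % 2 = 1 := by
        by_contra hcon
        have h2g : 2 ∣ g := by omega
        have h2x : ((2 : ℕ) : ℤ) ∣ (x n : ℤ) :=
          (Int.natCast_dvd_natCast.mpr h2g).trans (Int.gcd_dvd_left _ _)
        have h2V : ((2 : ℕ) : ℤ) ∣ V (n + 1) :=
          (Int.natCast_dvd_natCast.mpr h2g).trans (Int.gcd_dvd_right _ _)
        push_cast at h2x h2V
        rcases Nat.mod_two_eq_zero_or_one (n + 1) with h3 | h3
        · rw [hVeven _ h3] at h2V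
          omega
        · rw [hVodd _ h3] at h2V
          omega
      omega
  obtain ⟨l, h2l, hle, htr, hineq⟩ := amort N f x V hVeven hVodd hseg hpar f hf1 le_rfl
  have hrun := hseg.run (by omega : 1 ≤ l) le_rfl htr
  have hxl := hrun l le_rfl hle
  rw [hxf] at hxl
  have hineq2 : 10 * l + 23 * f ≤ 23 * N + 59 := by omega
  have hfN : f + 1 ≤ N := by
    have h1 := hseg.step 1 le_rfl (by omega)
    have hdec : ∀ n, 2 ≤ n → n ≤ f → x n + n ≤ x 2 + 2 := by
      intro n hn
      induction n, hn using Nat.le_induction with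
      | base => intro _; exact le_rfl
      | succ n hn ih =>
        intro hnf
        have h2 := ih (by omega)
        have h3 := hseg.step n (by omega) (by omega)
        have h4 := hseg.gcd_pos (by omega : 1 ≤ n) (by omega : n < f)
        omega
    have := hdec f hf1 le_rfl
    omega
  -- detection
  have detect : ∀ (p : ℕ), p.Prime → (p ∣ f + 1 ∨ p ∣ 2 * N - f - 1) → f - l < 2 * p := by
    intro p hp hdvd
    by_contra hcon
    push Not at hcon
    have hp2 := hp.two_le
    have suff : ∀ k, l ≤ k → k < f → p ∣ f - k → ¬ ((p : ℤ) ∣ V (k + 1)) := by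
      intro k hk1 hk2 hk3 hk4
      have h1 := htr k hk1 hk2
      have h2 := hrun k hk1 hk2.le
      have h8 : (p : ℤ) ∣ (Int.gcd (x k) (V (k + 1)) : ℤ) := by
        apply Int.dvd_coe_gcd _ hk4
        have : x k = f - k := by omega
        rw [this]
        exact Int.natCast_dvd_natCast.mpr hk3
      rw [h1] at h8
      have h9 : p ∣ 1 := by exact_mod_cast h8
      exact hp.one_lt.ne' (Nat.dvd_one.mp h9)
    by_cases h23 : p = 2
    · subst h23
      have h1 := suff (f - 2) (by omega) (by omega) (by omega)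
      rw [hVeven _ (by omega)] at h1
      omega
    have hcop : Nat.Coprime 2 p := by
      rw [Nat.coprime_primes Nat.prime_two hp]; omega
    rcases hdvd with hdvd | hdvd
    · obtain ⟨r, hr1, hr2⟩ := Nat.chineseRemainder hcop 0 (f + 1)
      obtain ⟨k, hk1, hk2, hk3⟩ := window (2 * p) (by omega) r f (by omega)
      have h3 : k + 1 ≡ f + 1 [MOD p] := (hk3.of_dvd (Dvd.intro_left _ rfl)).trans hr2
      have h4 : k ≡ f [MOD p] := Nat.ModEq.add_right_cancel' 1 h3
      have h5 : p ∣ f - k := (Nat.modEq_iff_dvd' (by omega)).mp h4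
      have h6 : k + 1 ≡ 0 [MOD 2] := (hk3.of_dvd (Dvd.intro _ rfl)).trans hr1
      apply suff k (by omega) hk2 h5
      rw [hVeven _ h6]
      exact Int.natCast_dvd_natCast.mpr ((Nat.ModEq.dvd_iff h3 dvd_rfl).mpr hdvd)
    · obtain ⟨r, hr1, hr2⟩ := Nat.chineseRemainder hcop 1 (f + 1)
      obtain ⟨k, hk1, hk2, hk3⟩ := window (2 * p) (by omega) r f (by omega)
      have h3 : k + 1 ≡ f + 1 [MOD p] := (hk3.of_dvd (Dvd.intro_left _ rfl)).trans hr2
      have h4 : k ≡ f [MOD p] := Nat.ModEq.add_right_cancel' 1 h3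
      have h5 : p ∣ f - k := (Nat.modEq_iff_dvd' (by omega)).mp h4
      have h6 : k + 1 ≡ 1 [MOD 2] := (hk3.of_dvd (Dvd.intro _ rfl)).trans hr1
      apply suff k (by omega) hk2 h5
      rw [hVodd _ h6]
      have e1 : 2 * (N : ℤ) - ((k + 1 : ℕ) : ℤ) = ((2 * N - f - 1 : ℕ) : ℤ)
          + ((f - k : ℕ) : ℤ) := by
        omega
      rw [e1]
      exact dvd_add (Int.natCast_dvd_natCast.mpr hdvd) (Int.natCast_dvd_natCast.mpr h5)
  have fin : ∀ p : ℕ, p.Prime → (p ∣ f + 1 ∨ p ∣ 2 * N - f - 1) →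
      p ≤ Nat.sqrt (2 * N - f - 1) →
      33 * f ≤ 23 * N + 20 * Nat.sqrt (2 * N - f - 1) + 49 := by
    intro p hp h1 h2
    have h3 := detect p hp h1
    omega
  have main : (Nat.Prime (f + 1) ∧ Nat.Prime (2 * N - f - 1)) ∨
      33 * f ≤ 23 * N + 20 * Nat.sqrt (2 * N - f - 1) + 49 := by
    by_cases hp1 : Nat.Prime (f + 1)
    · by_cases hp2 : Nat.Prime (2 * N - f - 1)
      · exact Or.inl ⟨hp1, hp2⟩
      · right
        apply fin (Nat.minFac (2 * N - f - 1)) (Nat.minFac_prime (by omega))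
          (Or.inr (Nat.minFac_dvd _))
        rw [Nat.le_sqrt']
        exact (Nat.minFac_sq_le_self (by omega) hp2).trans (by omega)
    · right
      apply fin (Nat.minFac (f + 1)) (Nat.minFac_prime (by omega)) (Or.inl (Nat.minFac_dvd _))
      rw [Nat.le_sqrt']
      exact (Nat.minFac_sq_le_self (by omega) hp1).trans (by omega)
  refine ⟨main, ?_⟩
  intro hN2 hfN2
  rcases main with h | h
  · exact h
  · exfalso
    have hs := Nat.sqrt_le' (2 * N - f - 1)
    set q := Nat.sqrt (2 * N - f - 1) with hq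
    -- 33 f ≤ 23 N + 20 q + 49, 5 N ≤ 7 f, q^2 ≤ 2 N - f - 1
    have h1 : 4 * N ≤ 140 * q + 343 := by omega
    have h2 : 7 * q ^ 2 + 7 ≤ 9 * N := by omega
    nlinarith [h1, h2]

end Pool.Agent.Results.MP_b5e119_nt.SharperDichotomy
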